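import Mathlib
import Pool.Agent.H11.NW.Harm

/-!
# HF, the function `g = Num / Den` over `ZMod p` and its universal jets at all integers

`Num = ∏_(p/6 < j < p/3) (2 j - X)`, `Den = ∏ (2 j + X)`, so that
`g(2x) = ∏_(p/6 < j < p/3) (1 - x/j) / (1 + x/j)`.

* `one_step` : `(3X+1) Num(X) Num(X+1) = (3X+2) Den(X) Den(X+1)`;
* `third_harm` : `∑_(p/6 < j < p/3) 1/j = - H_((p-1)/2)`, which is `0` for a Wieferich prime;
* `jets_nat`, `jets_neg` : for a Wieferich prime, at EVERY integer node `t`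
  `X ^ 3 ∣ den_t * Num(X+t) - num_t * Den(X+t)`, where `num_t / den_t` does not depend on `p`.
-/

set_option autoImplicit false

namespace Pool.Agent.H40.HF

open Polynomial Finset

/-- number of factors -/
def kk (p : ℕ) : ℕ := p / 3 - p / 6

noncomputable def Num (p : ℕ) : (ZMod p)[X] :=
  ∏ j ∈ Ioc (p / 6) (p / 3), (C (((2 * j : ℕ) : ZMod p)) - X)

noncomputable def Den (p : ℕ) : (ZMod p)[X] :=
  ∏ j ∈ Ioc (p / 6) (p / 3), (C (((2 * j : ℕ) : ZMod p)) + X)

/-! ### products over pairs -/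

theorem prod_pair {M : Type*} [CommMonoid M] (f : ℕ → M) (a n : ℕ) :
    ∏ j ∈ Ioc a (a + n), (f (2 * j) * f (2 * j - 1)) = ∏ i ∈ Ioc (2 * a) (2 * a + 2 * n), f i := by
  induction n with
  | zero => simp
  | succ n ih =>
    rw [show a + (n + 1) = (a + n) + 1 by ring, prod_Ioc_succ_top (by omega), ih,
      show 2 * a + 2 * (n + 1) = (2 * a + 2 * n + 1) + 1 by ring, prod_Ioc_succ_top (by omega),
      prod_Ioc_succ_top (by omega)]
    have h1 : 2 * (a + n + 1) = 2 * a + 2 * n + 1 + 1 := by ring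
    have h2 : 2 * (a + n + 1) - 1 = 2 * a + 2 * n + 1 := by omega
    rw [h2, h1]
    rw [mul_assoc, mul_comm (f (2 * a + 2 * n + 1 + 1))]

theorem prod_pair' {M : Type*} [CommMonoid M] (f : ℕ → M) (a n : ℕ) :
    ∏ j ∈ Ioc a (a + n), (f (2 * j) * f (2 * j + 1)) =
      ∏ i ∈ Ioc (2 * a + 1) (2 * a + 1 + 2 * n), f i := by
  induction n with
  | zero => simp
  | succ n ih =>
    rw [show a + (n + 1) = (a + n) + 1 by ring, prod_Ioc_succ_top (by omega), ih,
      show 2 * a + 1 + 2 * (n + 1) = (2 * a + 1 + 2 * n + 1) + 1 by ring,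
      prod_Ioc_succ_top (by omega), prod_Ioc_succ_top (by omega)]
    have h1 : 2 * (a + n + 1) = 2 * a + 1 + 2 * n + 1 := by ring
    rw [h1, mul_assoc]

/-- reflection `i ↦ c - i` of a product over an interval -/
theorem prod_reflect {M : Type*} [CommMonoid M] (f : ℕ → M) (a n c : ℕ) (h : a + n < c) :
    ∏ i ∈ Ioc a (a + n), f (c - i) = ∏ i ∈ Ioc (c - a - n - 1) (c - a - 1), f i := by
  refine prod_nbij' (fun i => c - i) (fun i => c - i) ?_ ?_ ?_ ?_ ?_
  · intro i hi
    have := mem_Ioc.1 hi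
    exact mem_Ioc.2 ⟨by omega, by omega⟩
  · intro i hi
    have := mem_Ioc.1 hi
    exact mem_Ioc.2 ⟨by omega, by omega⟩
  · intro i hi
    have := mem_Ioc.1 hi
    show c - (c - i) = i
    omega
  · intro i hi
    have := mem_Ioc.1 hi
    show c - (c - i) = i
    omega
  · intro i _
    rfl

section
variable (p : ℕ) [hp : Fact p.Prime]

theorem six_cases (h5 : 5 ≤ p) : ∃ k, (p = 6 * k + 1 ∧ 1 ≤ k) ∨ p = 6 * k + 5 := by
  have h2 : ¬ 2 ∣ p := fun h => by
    have := (Nat.prime_dvd_prime_iff_eq Nat.prime_two hp.out).1 h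
    omega
  have h3 : ¬ 3 ∣ p := fun h => by
    have := (Nat.prime_dvd_prime_iff_eq Nat.prime_three hp.out).1 h
    omega
  refine ⟨p / 6, ?_⟩
  omega

/-- the linear factor `i - X` -/
noncomputable def lin (i : ℕ) : (ZMod p)[X] := C ((i : ZMod p)) - X

theorem num_num (a b : ℕ) (hab : a ≤ b) :
    (∏ j ∈ Ioc a b, (C (((2 * j : ℕ) : ZMod p)) - X : (ZMod p)[X])) *
      (∏ j ∈ Ioc a b, (C (((2 * j : ℕ) : ZMod p)) - X : (ZMod p)[X])).comp (X + 1) =
    ∏ i ∈ Ioc (2 * a) (2 * b), lin p i := by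
  obtain ⟨n, rfl⟩ := Nat.exists_eq_add_of_le hab
  rw [Polynomial.prod_comp, ← prod_mul_distrib, show 2 * (a + n) = 2 * a + 2 * n by ring,
    ← prod_pair]
  refine prod_congr rfl fun j hj => ?_
  have hj' := mem_Ioc.1 hj
  unfold lin
  congr 1
  rw [sub_comp, C_comp, X_comp, Nat.cast_sub (by omega)]
  simp only [Nat.cast_mul, Nat.cast_one, C_sub, C_1]
  ring

theorem den_den (a b c : ℕ) (hab : a ≤ b) (hc : 2 * b + 1 < c) (hpc : p = c) :
    (∏ j ∈ Ioc a b, (C (((2 * j : ℕ) : ZMod p)) + X : (ZMod p)[X])) *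
      (∏ j ∈ Ioc a b, (C (((2 * j : ℕ) : ZMod p)) + X : (ZMod p)[X])).comp (X + 1) =
    ∏ i ∈ Ioc (c - 2 * b - 2) (c - 2 * a - 2), lin p i := by
  obtain ⟨n, rfl⟩ := Nat.exists_eq_add_of_le hab
  rw [Polynomial.prod_comp, ← prod_mul_distrib]
  have h1 : ∏ i ∈ Ioc (c - (2 * a + 1) - 2 * n - 1) (c - (2 * a + 1) - 1), lin p i =
      ∏ i ∈ Ioc (2 * a + 1) (2 * a + 1 + 2 * n), lin p (c - i) :=
    (prod_reflect (lin p) (2 * a + 1) (2 * n) c (by omega)).symm
  rw [show c - 2 * (a + n) - 2 = c - (2 * a + 1) - 2 * n - 1 by omega,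
    show c - 2 * a - 2 = c - (2 * a + 1) - 1 by omega, h1, ← prod_pair' (fun i => lin p (c - i))]
  refine prod_congr rfl fun j hj => ?_
  have hj' := mem_Ioc.1 hj
  have hlin : ∀ i, i ≤ c → lin p (c - i) = - (C ((i : ZMod p)) + X) := by
    intro i hi
    unfold lin
    rw [Nat.cast_sub hi, ← hpc, ZMod.natCast_self, zero_sub, C_neg]
    ring
  rw [hlin _ (by omega), hlin _ (by omega), neg_mul_neg, add_comp, C_comp, X_comp]
  congr 1
  push_cast
  simp only [C_add, C_mul, C_1]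
  ring

theorem one_step (h5 : 5 ≤ p) :
    (3 * X + 1) * (Num p * (Num p).comp (X + 1)) = (3 * X + 2) * (Den p * (Den p).comp (X + 1)) := by
  obtain ⟨k, hk | hk⟩ := six_cases p h5
  · obtain ⟨hk, hk1⟩ := hk
    have h6 : p / 6 = k := by omega
    have h3 : p / 3 = 2 * k := by omega
    have hN : Num p * (Num p).comp (X + 1) = ∏ i ∈ Ioc (2 * k) (4 * k), lin p i := by
      have := num_num p k (2 * k) (by omega)
      unfold Num
      rw [h6, h3, this]
      congr 2
      ring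
    have hD : Den p * (Den p).comp (X + 1) = ∏ i ∈ Ioc (2 * k - 1) (4 * k - 1), lin p i := by
      have := den_den p k (2 * k) (6 * k + 1) (by omega) (by omega) hk
      unfold Den
      rw [h6, h3, this]
      congr 2 <;> omega
    rw [hN, hD]
    obtain ⟨m, rfl⟩ : ∃ m, k = m + 1 := ⟨k - 1, by omega⟩
    have e1 : ∏ i ∈ Ioc (2 * (m + 1)) (4 * (m + 1)), lin p i =
        (∏ i ∈ Ioc (2 * (m + 1)) (4 * m + 3), lin p i) * lin p (4 * (m + 1)) := by
      rw [show 4 * (m + 1) = (4 * m + 3) + 1 by ring, prod_Ioc_succ_top (by omega)]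
    have e2 : ∏ i ∈ Ioc (2 * (m + 1) - 1) (4 * (m + 1) - 1), lin p i =
        lin p (2 * (m + 1)) * ∏ i ∈ Ioc (2 * (m + 1)) (4 * m + 3), lin p i := by
      rw [show 4 * (m + 1) - 1 = 4 * m + 3 by omega,
        show Ioc (2 * (m + 1) - 1) (4 * m + 3) = insert (2 * (m + 1)) (Ioc (2 * (m + 1)) (4 * m + 3)) by
          ext i; simp only [mem_Ioc, mem_insert]; omega, prod_insert (by simp)]
    have c1 : (3 : (ZMod p)[X]) * lin p (2 * (m + 1)) = -(3 * X + 1) := by
      unfold lin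
      have h0 : ((6 * (m + 1) + 1 : ℕ) : ZMod p) = 0 := by rw [← hk]; exact ZMod.natCast_self p
      have h1 : C ((6 * (m + 1) + 1 : ℕ) : ZMod p) = 0 := by rw [h0, C_0]
      push_cast at h1 ⊢
      simp only [C_add, C_mul, C_1, map_ofNat] at h1 ⊢
      linear_combination h1
    have c2 : (3 : (ZMod p)[X]) * lin p (4 * (m + 1)) = -(3 * X + 2) := by
      unfold lin
      have h0 : ((6 * (m + 1) + 1 : ℕ) : ZMod p) = 0 := by rw [← hk]; exact ZMod.natCast_self p
      have h1 : C ((6 * (m + 1) + 1 : ℕ) : ZMod p) = 0 := by rw [h0, C_0]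
      push_cast at h1 ⊢
      simp only [C_add, C_mul, C_1, map_ofNat] at h1 ⊢
      linear_combination 2 * h1
    rw [e1, e2]
    linear_combination (∏ i ∈ Ioc (2 * (m + 1)) (4 * m + 3), lin p i) * lin p (4 * (m + 1)) * c1
      - (∏ i ∈ Ioc (2 * (m + 1)) (4 * m + 3), lin p i) * lin p (2 * (m + 1)) * c2
  · have h6 : p / 6 = k := by omega
    have h3 : p / 3 = 2 * k + 1 := by omega
    have hN : Num p * (Num p).comp (X + 1) = ∏ i ∈ Ioc (2 * k) (4 * k + 2), lin p i := by
      have := num_num p k (2 * k + 1) (by omega)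
      unfold Num
      rw [h6, h3, this]
      congr 2
      ring
    have hD : Den p * (Den p).comp (X + 1) = ∏ i ∈ Ioc (2 * k + 1) (4 * k + 3), lin p i := by
      have := den_den p k (2 * k + 1) (6 * k + 5) (by omega) (by omega) hk
      unfold Den
      rw [h6, h3, this]
      congr 2 <;> omega
    rw [hN, hD]
    have e1 : ∏ i ∈ Ioc (2 * k) (4 * k + 2), lin p i =
        lin p (2 * k + 1) * ∏ i ∈ Ioc (2 * k + 1) (4 * k + 2), lin p i := by
      rw [show Ioc (2 * k) (4 * k + 2) = insert (2 * k + 1) (Ioc (2 * k + 1) (4 * k + 2)) by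
          ext i; simp only [mem_Ioc, mem_insert]; omega, prod_insert (by simp)]
    have e2 : ∏ i ∈ Ioc (2 * k + 1) (4 * k + 3), lin p i =
        (∏ i ∈ Ioc (2 * k + 1) (4 * k + 2), lin p i) * lin p (4 * k + 3) := by
      rw [show 4 * k + 3 = (4 * k + 2) + 1 by ring, prod_Ioc_succ_top (by omega)]
    have h0 : ((6 * k + 5 : ℕ) : ZMod p) = 0 := by
      rw [← hk]; exact ZMod.natCast_self p
    have h1 : C ((6 * k + 5 : ℕ) : ZMod p) = 0 := by rw [h0, C_0]
    have c1 : (3 : (ZMod p)[X]) * lin p (4 * k + 3) = -(3 * X + 1) := by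
      unfold lin
      push_cast at h1 ⊢
      simp only [C_add, C_mul, C_1, map_ofNat] at h1 ⊢
      linear_combination 2 * h1
    have c2 : (3 : (ZMod p)[X]) * lin p (2 * k + 1) = -(3 * X + 2) := by
      unfold lin
      push_cast at h1 ⊢
      simp only [C_add, C_mul, C_1, map_ofNat] at h1 ⊢
      linear_combination h1
    rw [e1, e2]
    linear_combination -(∏ i ∈ Ioc (2 * k + 1) (4 * k + 2), lin p i) * lin p (4 * k + 3) * c2
      + (∏ i ∈ Ioc (2 * k + 1) (4 * k + 2), lin p i) * lin p (2 * k + 1) * c1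

/-! ### the harmonic sum -/

theorem sum_split {M : Type*} [AddCommMonoid M] (f : ℕ → M) (n : ℕ) :
    ∑ i ∈ Ioc 0 (2 * n), f i = ∑ j ∈ Ioc 0 n, (f (2 * j) + f (2 * j - 1)) := by
  have := prod_pair (M := Multiplicative M) (fun i => Multiplicative.ofAdd (f i)) 0 n
  simp only [mul_zero, zero_add] at this
  exact (congrArg Multiplicative.toAdd this).symm

theorem sum_reflect {M : Type*} [AddCommMonoid M] (f : ℕ → M) (a n c : ℕ) (h : a + n < c) :
    ∑ i ∈ Ioc a (a + n), f (c - i) = ∑ i ∈ Ioc (c - a - n - 1) (c - a - 1), f i :=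
  congrArg Multiplicative.toAdd
    (prod_reflect (M := Multiplicative M) (fun i => Multiplicative.ofAdd (f i)) a n c h)

/-- `∑_(p/6 < j < p/3) 1/j = - ∑_(j ≤ (p-1)/2) 1/j` -/
theorem third_harm (h5 : 5 ≤ p) :
    ∑ j ∈ Ioc (p / 6) (p / 3), ((j : ZMod p))⁻¹ = - ∑ j ∈ Ioc 0 (p / 2), ((j : ZMod p))⁻¹ := by
  have h2 : (2 : ZMod p) ≠ 0 := by
    intro h
    have : ((2 : ℕ) : ZMod p) = 0 := by exact_mod_cast h
    rw [ZMod.natCast_eq_zero_iff] at this
    exact absurd (Nat.le_of_dvd (by omega) this) (by omega)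
  set f : ℕ → ZMod p := fun j => ((j : ZMod p))⁻¹ with hf
  have hdbl : ∀ j, f (2 * j) = 2⁻¹ * f j := by
    intro j
    simp only [hf]
    push_cast
    rw [mul_inv]
  have hrefl : ∀ i j, i + 2 * j = p → f i = - (2⁻¹ * f j) := by
    intro i j hij
    rw [← hdbl]
    simp only [hf]
    have : ((i + 2 * j : ℕ) : ZMod p) = 0 := by rw [hij]; exact ZMod.natCast_self p
    push_cast at this ⊢
    rw [← inv_neg]
    congr 1
    linear_combination this
  have hadd : ∀ a b c : ℕ, a ≤ b → b ≤ c →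
      ∑ j ∈ Ioc a c, f j = ∑ j ∈ Ioc a b, f j + ∑ j ∈ Ioc b c, f j := by
    intro a b c hab hbc
    exact (sum_Ioc_consecutive f hab hbc).symm
  -- `h(0,p/3) = h(0,p/6)/2 - h(p/3,p/2)/2`
  have key : ∑ i ∈ Ioc 0 (p / 3), f i =
      2⁻¹ * ∑ j ∈ Ioc 0 (p / 6), f j - 2⁻¹ * ∑ j ∈ Ioc (p / 3) (p / 2), f j := by
    obtain ⟨k, hk | hk⟩ := six_cases p h5
    · obtain ⟨hk, hk1⟩ := hk
      have h6 : p / 6 = k := by omega
      have h3 : p / 3 = 2 * k := by omega
      have hM : p / 2 = 3 * k := by omega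
      rw [h6, h3, hM, sum_split, sum_add_distrib]
      have e1 : ∑ j ∈ Ioc 0 k, f (2 * j) = 2⁻¹ * ∑ j ∈ Ioc 0 k, f j := by
        rw [mul_sum]
        exact sum_congr rfl fun j _ => hdbl j
      have e2 : ∑ j ∈ Ioc 0 k, f (2 * j - 1) = - (2⁻¹ * ∑ j ∈ Ioc (2 * k) (3 * k), f j) := by
        have h7 := sum_reflect f 0 k (3 * k + 1) (by omega)
        rw [show 3 * k + 1 - 0 - k - 1 = 2 * k by omega,
          show 3 * k + 1 - 0 - 1 = 3 * k by omega, zero_add] at h7
        rw [← h7, mul_sum, ← sum_neg_distrib]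
        refine sum_congr rfl fun j hj => ?_
        have := mem_Ioc.1 hj
        exact hrefl _ _ (by omega)
      rw [e1, e2]
      ring
    · have h6 : p / 6 = k := by omega
      have h3 : p / 3 = 2 * k + 1 := by omega
      have hM : p / 2 = 3 * k + 2 := by omega
      rw [h6, h3, hM, sum_Ioc_succ_top (by omega), sum_split, sum_add_distrib]
      have e1 : ∑ j ∈ Ioc 0 k, f (2 * j) = 2⁻¹ * ∑ j ∈ Ioc 0 k, f j := by
        rw [mul_sum]
        exact sum_congr rfl fun j _ => hdbl j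
      have e2 : ∑ j ∈ Ioc 0 k, f (2 * j - 1) + f (2 * k + 1) =
          - (2⁻¹ * ∑ j ∈ Ioc (2 * k + 1) (3 * k + 2), f j) := by
        have h7 := sum_reflect f 0 (k + 1) (3 * k + 3) (by omega)
        rw [show 3 * k + 3 - 0 - (k + 1) - 1 = 2 * k + 1 by omega,
          show 3 * k + 3 - 0 - 1 = 3 * k + 2 by omega, zero_add] at h7
        rw [← h7, mul_sum, ← sum_neg_distrib, sum_Ioc_succ_top (by omega)]
        congr 1
        · refine sum_congr rfl fun j hj => ?_
          have := mem_Ioc.1 hj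
          exact hrefl _ _ (by omega)
        · exact hrefl _ _ (by omega)
      rw [e1, add_assoc, e2]
      ring
  have ha := hadd 0 (p / 6) (p / 3) (by omega) (by omega)
  have hb := hadd 0 (p / 3) (p / 2) (by omega) (by omega)
  have h22 : (2 : ZMod p) * 2⁻¹ = 1 := mul_inv_cancel₀ h2
  linear_combination 2 * key - ha + hb
    + (∑ j ∈ Ioc 0 (p / 6), f j - ∑ j ∈ Ioc (p / 3) (p / 2), f j) * h22

theorem sum_Ioc_range {M : Type*} [AddCommMonoid M] (g : ℕ → M) (n : ℕ) :
    ∑ j ∈ Ioc 0 n, g j = ∑ j ∈ range n, g (j + 1) := by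
  induction n with
  | zero => simp
  | succ n ih => rw [sum_Ioc_succ_top (by omega), ih, sum_range_succ]

theorem third_harm_zero (h5 : 5 ≤ p) (hw : Pool.Agent.H11.NW.Wf p) :
    ∑ j ∈ Ioc (p / 6) (p / 3), ((j : ZMod p))⁻¹ = 0 := by
  rw [third_harm p h5, neg_eq_zero, sum_Ioc_range]
  have h1 := Pool.Agent.H11.NW.harm_one_aux p (by omega) hw
  rw [← h1]
  refine sum_congr rfl fun j _ => ?_
  push_cast
  rfl

/-! ### degrees, values at zero, the first three coefficients -/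

theorem Num_comp_neg : (Num p).comp (-X) = Den p := by
  unfold Num Den
  rw [Polynomial.prod_comp]
  refine prod_congr rfl fun j _ => ?_
  rw [sub_comp, C_comp, X_comp, sub_neg_eq_add]

theorem Den_comp_neg : (Den p).comp (-X) = Num p := by
  unfold Num Den
  rw [Polynomial.prod_comp]
  refine prod_congr rfl fun j _ => ?_
  rw [add_comp, C_comp, X_comp, ← sub_eq_add_neg]

theorem Den_monic : (Den p).Monic := by
  unfold Den
  refine monic_prod_of_monic _ _ fun j _ => ?_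
  rw [add_comm]
  exact monic_X_add_C _

theorem Den_natDegree : (Den p).natDegree = kk p := by
  unfold Den
  rw [natDegree_prod_of_monic _ _ fun j _ => by rw [add_comm]; exact monic_X_add_C _]
  have h : ∀ j ∈ Ioc (p / 6) (p / 3), (C (((2 * j : ℕ) : ZMod p)) + X : (ZMod p)[X]).natDegree = 1 :=
    fun j _ => by rw [add_comm]; exact natDegree_X_add_C _
  rw [sum_congr rfl h]
  simp [kk]

theorem Num_natDegree : (Num p).natDegree = kk p := by
  rw [← Den_comp_neg, natDegree_comp, Den_natDegree p]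
  simp

theorem Num_ne : Num p ≠ 0 := by
  intro h
  have h1 := congrArg (fun q => q.comp (-X)) h
  simp only [Num_comp_neg, zero_comp] at h1
  exact (Den_monic p).ne_zero h1

theorem Den_ne : Den p ≠ 0 := (Den_monic p).ne_zero

theorem two_j_ne (h5 : 5 ≤ p) {j : ℕ} (hj : j ∈ Ioc (p / 6) (p / 3)) : ((2 * j : ℕ) : ZMod p) ≠ 0 := by
  intro h
  rw [ZMod.natCast_eq_zero_iff] at h
  have hj' := mem_Ioc.1 hj
  have := Nat.le_of_dvd (by omega) h
  omega

theorem Den_coeff_zero_ne (h5 : 5 ≤ p) : (Den p).coeff 0 ≠ 0 := by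
  unfold Den
  rw [coeff_zero_prod]
  refine prod_ne_zero_iff.2 fun j hj => ?_
  simp only [coeff_add, coeff_C_zero, coeff_X_zero, add_zero]
  exact two_j_ne p h5 hj

/-- modulo `X ^ 3` a product of `a_j - X` and the product of `a_j + X` agree when `∑ 1 / a_j = 0` -/
theorem prod_mod_cube {K : Type*} [Field K] (S : Finset ℕ) (a : ℕ → K) (ha : ∀ j ∈ S, a j ≠ 0)
    (hs : ∑ j ∈ S, (a j)⁻¹ = 0) :
    (X : K[X]) ^ 3 ∣ (∏ j ∈ S, (C (a j) - X)) - ∏ j ∈ S, (C (a j) + X) := by
  classical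
  have gen : ∀ T : Finset ℕ, T ⊆ S → ∃ c : K, (X : K[X]) ^ 3 ∣
      (∏ j ∈ T, (C (a j) - X)) - C (∏ j ∈ T, a j) * (1 - C (∑ j ∈ T, (a j)⁻¹) * X + C c * X ^ 2) ∧
      (X : K[X]) ^ 3 ∣
      (∏ j ∈ T, (C (a j) + X)) - C (∏ j ∈ T, a j) * (1 + C (∑ j ∈ T, (a j)⁻¹) * X + C c * X ^ 2) := by
    intro T
    induction T using Finset.induction_on with
    | empty =>
      intro _
      exact ⟨0, by simp, by simp⟩
    | insert i T hi ih =>
      intro hT
      obtain ⟨c, ⟨u, hu⟩, ⟨v, hv⟩⟩ := ih fun x hx => hT (mem_insert_of_mem hx)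
      have hai : a i ≠ 0 := ha i (hT (mem_insert_self _ _))
      set P := ∏ j ∈ T, a j
      set s := ∑ j ∈ T, (a j)⁻¹
      have hinv : C (a i) * C ((a i)⁻¹) = (1 : K[X]) := by
        rw [← C_mul, mul_inv_cancel₀ hai, C_1]
      refine ⟨c + (a i)⁻¹ * s, ?_, ?_⟩
      · rw [prod_insert hi, prod_insert hi, sum_insert hi]
        refine ⟨(C (a i) - X) * u - C P * C c, ?_⟩
        have : ∏ j ∈ T, (C (a j) - X) = X ^ 3 * u + C P * (1 - C s * X + C c * X ^ 2) := by
          rw [← hu]; ring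
        rw [this]
        simp only [C_add, C_mul]
        linear_combination (C P * X - C P * C s * X ^ 2) * hinv
      · rw [prod_insert hi, prod_insert hi, sum_insert hi]
        refine ⟨(C (a i) + X) * v + C P * C c, ?_⟩
        have : ∏ j ∈ T, (C (a j) + X) = X ^ 3 * v + C P * (1 + C s * X + C c * X ^ 2) := by
          rw [← hv]; ring
        rw [this]
        simp only [C_add, C_mul]
        linear_combination (- C P * X - C P * C s * X ^ 2) * hinv
  obtain ⟨c, ⟨u, hu⟩, ⟨v, hv⟩⟩ := gen S (Subset.refl _)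
  rw [hs] at hu hv
  refine ⟨u - v, ?_⟩
  simp only [C_0, zero_mul, sub_zero, add_zero] at hu hv
  linear_combination hu - hv

theorem cube_dvd (h5 : 5 ≤ p) (hw : Pool.Agent.H11.NW.Wf p) :
    (X : (ZMod p)[X]) ^ 3 ∣ Num p - Den p := by
  unfold Num Den
  refine prod_mod_cube _ (fun j => ((2 * j : ℕ) : ZMod p)) (fun j hj => two_j_ne p h5 hj) ?_
  have h1 := third_harm_zero p h5 hw
  have : ∑ j ∈ Ioc (p / 6) (p / 3), (((2 * j : ℕ) : ZMod p))⁻¹ =
      2⁻¹ * ∑ j ∈ Ioc (p / 6) (p / 3), ((j : ZMod p))⁻¹ := by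
    rw [mul_sum]
    refine sum_congr rfl fun j _ => ?_
    push_cast
    rw [mul_inv]
  rw [this, h1, mul_zero]

end

/-! ### the universal jets -/

/-- `(num_t, den_t)`: `num_(t+1) = (3(t+X)+2) den_t`, `den_(t+1) = (3(t+X)+1) num_t` -/
noncomputable def nd (R : Type*) [CommRing R] : ℕ → R[X] × R[X]
  | 0 => (1, 1)
  | t + 1 => ((C (3 * (t : R) + 2) + C 3 * X) * (nd R t).2, (C (3 * (t : R) + 1) + C 3 * X) * (nd R t).1)

theorem nd_zero (R : Type*) [CommRing R] : nd R 0 = (1, 1) := rfl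

theorem nd_succ (R : Type*) [CommRing R] (t : ℕ) : nd R (t + 1) =
    ((C (3 * (t : R) + 2) + C 3 * X) * (nd R t).2, (C (3 * (t : R) + 1) + C 3 * X) * (nd R t).1) := rfl

theorem nd_map {R S : Type*} [CommRing R] [CommRing S] (f : R →+* S) (t : ℕ) :
    ((nd R t).1.map f, (nd R t).2.map f) = nd S t := by
  induction t with
  | zero => simp [nd_zero]
  | succ t ih =>
    rw [nd_succ, nd_succ, ← ih]
    have h3 : f 3 = 3 := map_ofNat f 3
    have h2 : f 2 = 2 := map_ofNat f 2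
    simp [Polynomial.map_mul, Polynomial.map_add, h3, h2]

section
variable (p : ℕ) [hp : Fact p.Prime]

theorem one_step_at (h5 : 5 ≤ p) (t : ℕ) :
    (C (3 * (t : ZMod p) + 1) + C 3 * X) *
        ((Num p).comp (X + C (t : ZMod p)) * (Num p).comp (X + C ((t + 1 : ℕ) : ZMod p))) =
      (C (3 * (t : ZMod p) + 2) + C 3 * X) *
        ((Den p).comp (X + C (t : ZMod p)) * (Den p).comp (X + C ((t + 1 : ℕ) : ZMod p))) := by
  have h := congrArg (fun q => q.comp (X + C (t : ZMod p))) (one_step p h5)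
  simp only [mul_comp, add_comp, X_comp, one_comp, ofNat_comp, comp_assoc] at h
  have e : (X + C ((t + 1 : ℕ) : ZMod p) : (ZMod p)[X]) = X + C (t : ZMod p) + 1 := by
    push_cast
    simp only [C_add, C_1]
    ring
  rw [e]
  have h3 : (C (3 : ZMod p) : (ZMod p)[X]) = 3 := rfl
  have h2 : (C (2 : ZMod p) : (ZMod p)[X]) = 2 := rfl
  simp only [C_add, C_mul, C_1, h3, h2] at h ⊢
  linear_combination h

theorem comp_ne {q : (ZMod p)[X]} (hq : q ≠ 0) (t : ZMod p) : q.comp (X + C t) ≠ 0 := by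
  intro h
  apply hq
  have h1 := congrArg (fun r => r.comp (X - C t)) h
  simp only [comp_assoc, zero_comp] at h1
  have h2 : ((X + C t : (ZMod p)[X]).comp (X - C t)) = X := by simp
  rwa [h2, comp_X] at h1

/-- the exact identity over `ZMod p` -/
theorem exact (h5 : 5 ≤ p) (t : ℕ) :
    (Even t → (nd (ZMod p) t).2 * (Num p).comp (X + C (t : ZMod p)) * Den p =
      (nd (ZMod p) t).1 * (Den p).comp (X + C (t : ZMod p)) * Num p) ∧
    (¬ Even t → (nd (ZMod p) t).2 * (Num p).comp (X + C (t : ZMod p)) * Num p =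
      (nd (ZMod p) t).1 * (Den p).comp (X + C (t : ZMod p)) * Den p) := by
  induction t with
  | zero =>
    refine ⟨fun _ => ?_, fun h => absurd (by decide) h⟩
    simp only [nd_zero, Nat.cast_zero, C_0, add_zero, comp_X]
    ring
  | succ t ih =>
    have hs := one_step_at p h5 t
    have hN := comp_ne p (Num_ne p) (t : ZMod p)
    rw [nd_succ]
    refine ⟨fun he => ?_, fun he => ?_⟩
    · have ht : ¬ Even t := by
        intro h
        exact (Nat.even_add_one.1 he) h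
      have h1 := ih.2 ht
      apply mul_right_cancel₀ hN
      simp only []
      linear_combination ((nd (ZMod p) t).1 * Den p) * hs
        - ((C (3 * (t : ZMod p) + 2) + C 3 * X) * (Den p).comp (X + C ((t + 1 : ℕ) : ZMod p))) * h1
    · have ht : Even t := by
        by_contra h
        exact he (Nat.even_add_one.2 h)
      have h1 := ih.1 ht
      apply mul_right_cancel₀ hN
      simp only []
      linear_combination ((nd (ZMod p) t).1 * Num p) * hs
        - ((C (3 * (t : ZMod p) + 2) + C 3 * X) * (Den p).comp (X + C ((t + 1 : ℕ) : ZMod p))) * h1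

/-- THE JETS at the node `t ≥ 0`, for every Wieferich prime `p ≥ 5` (no restriction on `t`) -/
theorem jets_nat (h5 : 5 ≤ p) (hw : Pool.Agent.H11.NW.Wf p) (t : ℕ) :
    (X : (ZMod p)[X]) ^ 3 ∣ (nd (ZMod p) t).2 * (Num p).comp (X + C (t : ZMod p)) -
      (nd (ZMod p) t).1 * (Den p).comp (X + C (t : ZMod p)) := by
  have hc := cube_dvd p h5 hw
  have hcop : IsCoprime ((X : (ZMod p)[X]) ^ 3) (Den p) := by
    apply IsCoprime.pow_left
    rw [Irreducible.coprime_iff_not_dvd irreducible_X, X_dvd_iff]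
    exact Den_coeff_zero_ne p h5
  obtain ⟨w, hw'⟩ := hc
  refine hcop.dvd_of_dvd_mul_right ?_
  by_cases ht : Even t
  · have h1 := (exact p h5 t).1 ht
    refine ⟨(nd (ZMod p) t).1 * (Den p).comp (X + C (t : ZMod p)) * w, ?_⟩
    linear_combination h1 + (nd (ZMod p) t).1 * (Den p).comp (X + C (t : ZMod p)) * hw'
  · have h1 := (exact p h5 t).2 ht
    refine ⟨- ((nd (ZMod p) t).2 * (Num p).comp (X + C (t : ZMod p)) * w), ?_⟩
    linear_combination h1 - (nd (ZMod p) t).2 * (Num p).comp (X + C (t : ZMod p)) * hw'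

/-- THE JETS at the node `-t`: here `num_(-t)(X) = den_t(-X)`, `den_(-t)(X) = num_t(-X)` -/
theorem jets_neg (h5 : 5 ≤ p) (hw : Pool.Agent.H11.NW.Wf p) (t : ℕ) :
    (X : (ZMod p)[X]) ^ 3 ∣ (nd (ZMod p) t).1.comp (-X) * (Num p).comp (X - C (t : ZMod p)) -
      (nd (ZMod p) t).2.comp (-X) * (Den p).comp (X - C (t : ZMod p)) := by
  obtain ⟨w, hw'⟩ := jets_nat p h5 hw t
  have h := congrArg (fun q => q.comp (-X)) hw'
  simp only [sub_comp, mul_comp, comp_assoc, add_comp, X_comp, C_comp, pow_comp] at h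
  have e : (-X + C (t : ZMod p) : (ZMod p)[X]) = (-X : (ZMod p)[X]).comp (X - C (t : ZMod p)) := by
    rw [neg_comp, X_comp]; ring
  rw [e, ← comp_assoc, ← comp_assoc, Num_comp_neg, Den_comp_neg] at h
  refine ⟨w.comp (-X), ?_⟩
  have h9 : (-X : (ZMod p)[X]) ^ 3 = - X ^ 3 := by ring
  rw [h9] at h
  linear_combination - h

end

end Pool.Agent.H40.HF
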